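import Mathlib
import Pool.Agent.Helper40.Nil.Stmts

set_option autoImplicit false

namespace Pool.Agent.Helper40.Nil

open Filter Topology
open scoped ComplexConjugate InnerProductSpace Matrix ComplexOrder

universe u

variable {E : Type u} [NormedAddCommGroup E] [InnerProductSpace ℂ E]

lemma hsz_cs {ι : Type u} (s : Finset ι) (c : ι → ℝ) (ξ : ι → E) (v : E) :
    ‖∑ x ∈ s, (c x : ℂ) • (⟪ξ x, v⟫_ℂ • ξ x)‖ ^ 2 ≤
      (∑ x ∈ s, ∑ y ∈ s, c x * c y * ‖⟪ξ x, ξ y⟫_ℂ‖ ^ 2) * ‖v‖ ^ 2 := by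
  classical
  set w := ∑ x ∈ s, (c x : ℂ) • (⟪ξ x, v⟫_ℂ • ξ x) with hw
  set B := ∑ x ∈ s, ∑ y ∈ s, c x * c y * ‖⟪ξ x, ξ y⟫_ℂ‖ ^ 2 with hB
  have e1 : ∑ y ∈ s, (c y : ℂ) * (⟪w, ξ y⟫_ℂ * ⟪ξ y, v⟫_ℂ) = ((‖w‖ ^ 2 : ℝ) : ℂ) := by
    have h1 : ⟪w, w⟫_ℂ = ∑ y ∈ s, (c y : ℂ) * (⟪w, ξ y⟫_ℂ * ⟪ξ y, v⟫_ℂ) := by
      conv_lhs => rw [hw]
      rw [← hw, inner_sum]
      refine Finset.sum_congr rfl fun y _ => ?_
      rw [inner_smul_right, inner_smul_right]
      ring
    rw [← h1, inner_self_eq_norm_sq_to_K]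
    norm_cast
  have e2 : ∑ y ∈ s, (c y : ℂ) * (⟪ξ y, w⟫_ℂ * ⟪v, ξ y⟫_ℂ) = ((‖w‖ ^ 2 : ℝ) : ℂ) := by
    have h1 := congrArg (starRingEnd ℂ) e1
    rw [Complex.conj_ofReal, map_sum] at h1
    rw [← h1]
    refine Finset.sum_congr rfl fun y _ => ?_
    rw [map_mul, map_mul, Complex.conj_ofReal, inner_conj_symm, inner_conj_symm]
  have e3 : ∑ x ∈ s, ∑ y ∈ s, (c x : ℂ) * c y * (⟪ξ x, ξ y⟫_ℂ * ⟪ξ y, ξ x⟫_ℂ) = (B : ℂ) := by
    rw [hB]
    push_cast
    refine Finset.sum_congr rfl fun x _ => Finset.sum_congr rfl fun y _ => ?_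
    rw [← inner_conj_symm (ξ y) (ξ x), Complex.mul_conj, Complex.normSq_eq_norm_sq]
    push_cast
    ring
  have key : ∀ t : ℝ, 0 ≤ (‖w‖ ^ 2 * ‖v‖ ^ 2) * (t * t) + (2 * ‖w‖ ^ 2) * t + B := by
    intro t
    let u' : Option s → E := fun i => i.elim w (fun x => ξ x)
    let v' : Option s → E := fun i => i.elim v (fun x => ξ x)
    let a : Option s → ℂ := fun i => i.elim (t : ℂ) (fun x => (c x : ℂ))
    have h1 := (Matrix.posSemidef_gram ℂ u').hadamard (Matrix.posSemidef_gram ℂ v').transpose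
    have h2 := h1.re_dotProduct_nonneg a
    have e4 : ⟪w, w⟫_ℂ = ((‖w‖ ^ 2 : ℝ) : ℂ) := by
      rw [inner_self_eq_norm_sq_to_K]; norm_cast
    have e5 : ⟪v, v⟫_ℂ = ((‖v‖ ^ 2 : ℝ) : ℂ) := by
      rw [inner_self_eq_norm_sq_to_K]; norm_cast
    have h3 : star a ⬝ᵥ ((Matrix.gram ℂ u').hadamard (Matrix.gram ℂ v')ᵀ) *ᵥ a =
        (((‖w‖ ^ 2 * ‖v‖ ^ 2) * (t * t) + (2 * ‖w‖ ^ 2) * t + B : ℝ) : ℂ) := by
      have g1 : star a ⬝ᵥ ((Matrix.gram ℂ u').hadamard (Matrix.gram ℂ v')ᵀ) *ᵥ a =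
          (t : ℂ) * t * (⟪w, w⟫_ℂ * ⟪v, v⟫_ℂ) +
          (t : ℂ) * (∑ y : s, (c y : ℂ) * (⟪ξ y, w⟫_ℂ * ⟪v, ξ y⟫_ℂ)) +
          (t : ℂ) * (∑ y : s, (c y : ℂ) * (⟪w, ξ y⟫_ℂ * ⟪ξ y, v⟫_ℂ)) +
          ∑ x : s, ∑ y : s, (c x : ℂ) * c y * (⟪ξ x, ξ y⟫_ℂ * ⟪ξ y, ξ x⟫_ℂ) := by
        simp only [dotProduct, Matrix.mulVec, Fintype.sum_option, Pi.star_apply,
          Matrix.hadamard_apply, Matrix.gram_apply, Matrix.transpose_apply, u', v', a, Option.elim,
          RCLike.star_def, Complex.conj_ofReal, Finset.mul_sum, mul_add, Finset.sum_add_distrib]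
        rw [← add_assoc]
        refine congrArg₂ (· + ·) (congrArg₂ (· + ·) (congrArg₂ (· + ·) ?_ ?_) ?_) ?_
        · ring
        · exact Finset.sum_congr rfl fun y _ => by ring
        · exact Finset.sum_congr rfl fun y _ => by ring
        · exact Finset.sum_congr rfl fun x _ => Finset.sum_congr rfl fun y _ => by ring
      rw [g1, e4, e5, Finset.sum_coe_sort s (fun y => (c y : ℂ) * (⟪w, ξ y⟫_ℂ * ⟪ξ y, v⟫_ℂ)), e1,
        Finset.sum_coe_sort s (fun y => (c y : ℂ) * (⟪ξ y, w⟫_ℂ * ⟪v, ξ y⟫_ℂ)), e2]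
      have g2 : ∑ x : s, ∑ y : s, (c x : ℂ) * c y * (⟪ξ x, ξ y⟫_ℂ * ⟪ξ y, ξ x⟫_ℂ) = (B : ℂ) := by
        rw [← e3, ← Finset.sum_coe_sort s]
        refine Finset.sum_congr rfl fun x _ => ?_
        rw [← Finset.sum_coe_sort s]
      rw [g2]
      push_cast
      ring
    rw [h3] at h2
    have h4 : 0 ≤ ((((‖w‖ ^ 2 * ‖v‖ ^ 2) * (t * t) + (2 * ‖w‖ ^ 2) * t + B : ℝ) : ℂ)).re := h2
    rwa [Complex.ofReal_re] at h4
  have h4 := discrim_le_zero key
  rw [discrim] at h4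
  rcases eq_or_ne w 0 with h5 | h5
  · rw [h5, norm_zero, zero_pow (by norm_num)]
    have h6 := key 0
    have h7 : 0 ≤ B := by simpa using h6
    positivity
  · have h6 : 0 < ‖w‖ ^ 2 := by positivity
    by_contra hcon
    push Not at hcon
    nlinarith [mul_pos h6 h6, mul_lt_mul_of_pos_left hcon h6]

section ops

variable {V : Type u} (ξ : V → E)

noncomputable def hszT : (V →₀ ℝ) →ₗ[ℝ] (E →L[ℂ] E) :=
  Finsupp.linearCombination ℝ (fun x => InnerProductSpace.rankOne ℂ (ξ x) (ξ x))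

noncomputable def hszK (x y : V) : ℝ := ‖⟪ξ x, ξ y⟫_ℂ‖ ^ 2

noncomputable def hszB : (V →₀ ℝ) →ₗ[ℝ] (V →₀ ℝ) →ₗ[ℝ] ℝ :=
  Finsupp.linearCombination ℝ (fun x => Finsupp.linearCombination ℝ (fun y => hszK ξ x y))

lemma hszT_apply (c : V →₀ ℝ) (v : E) :
    hszT ξ c v = ∑ x ∈ c.support, (c x : ℂ) • (⟪ξ x, v⟫_ℂ • ξ x) := by
  rw [hszT, Finsupp.linearCombination_apply, Finsupp.sum, sum_apply]
  refine Finset.sum_congr rfl fun x _ => ?_
  rw [smul_apply, InnerProductSpace.rankOne_apply, Complex.coe_smul]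

lemma hszB_apply (c d : V →₀ ℝ) :
    hszB ξ c d = ∑ x ∈ c.support, ∑ y ∈ d.support, c x * d y * hszK ξ x y := by
  rw [hszB, Finsupp.linearCombination_apply, Finsupp.sum, LinearMap.sum_apply]
  refine Finset.sum_congr rfl fun x _ => ?_
  rw [LinearMap.smul_apply, Finsupp.linearCombination_apply, Finsupp.sum, smul_eq_mul,
    Finset.mul_sum]
  refine Finset.sum_congr rfl fun y _ => ?_
  rw [smul_eq_mul]
  ring

lemma hszK_symm (x y : V) : hszK ξ x y = hszK ξ y x := by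
  unfold hszK
  rw [norm_inner_symm]

lemma hszB_symm (c d : V →₀ ℝ) : hszB ξ c d = hszB ξ d c := by
  rw [hszB_apply, hszB_apply, Finset.sum_comm]
  refine Finset.sum_congr rfl fun x _ => Finset.sum_congr rfl fun y _ => ?_
  rw [hszK_symm]
  ring

lemma hszT_le (c : V →₀ ℝ) (v : E) : ‖hszT ξ c v‖ ^ 2 ≤ hszB ξ c c * ‖v‖ ^ 2 := by
  rw [hszT_apply, hszB_apply]
  exact hsz_cs c.support c ξ v

lemma hszT_norm [Nontrivial E] (c : V →₀ ℝ) : 0 ≤ hszB ξ c c ∧ ‖hszT ξ c‖ ^ 2 ≤ hszB ξ c c := by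
  have h0 : 0 ≤ hszB ξ c c := by
    obtain ⟨v, hv⟩ := exists_ne (0 : E)
    have h1 := hszT_le ξ c v
    have h2 : 0 < ‖v‖ ^ 2 := by positivity
    by_contra hcon
    push Not at hcon
    nlinarith [sq_nonneg ‖hszT ξ c v‖, mul_neg_of_neg_of_pos hcon h2]
  refine ⟨h0, ?_⟩
  have h1 : ‖hszT ξ c‖ ≤ Real.sqrt (hszB ξ c c) := by
    refine ContinuousLinearMap.opNorm_le_bound _ (Real.sqrt_nonneg _) fun v => ?_
    have h2 := hszT_le ξ c v
    have h3 : (Real.sqrt (hszB ξ c c) * ‖v‖) ^ 2 = hszB ξ c c * ‖v‖ ^ 2 := by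
      rw [mul_pow, Real.sq_sqrt h0]
    rw [← h3] at h2
    exact (abs_le_of_sq_le_sq' h2 (by positivity)).2
  calc ‖hszT ξ c‖ ^ 2 ≤ (Real.sqrt (hszB ξ c c)) ^ 2 := by gcongr
    _ = hszB ξ c c := Real.sq_sqrt h0

lemma hszT_symm (c : V →₀ ℝ) (u v : E) : ⟪hszT ξ c u, v⟫_ℂ = ⟪u, hszT ξ c v⟫_ℂ := by
  rw [hszT_apply, hszT_apply, sum_inner, inner_sum]
  refine Finset.sum_congr rfl fun x _ => ?_
  rw [inner_smul_left, inner_smul_left, inner_smul_right, inner_smul_right, Complex.conj_ofReal,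
    inner_conj_symm]
  ring

lemma hszT_compact (c : V →₀ ℝ) : IsCompactOperator (hszT ξ c) := by
  have h1 : ∀ x : V, IsCompactOperator (InnerProductSpace.rankOne ℂ (ξ x) (ξ x) : E →L[ℂ] E) := by
    intro x
    rw [InnerProductSpace.rankOne_def']
    have h3 : IsCompactOperator (innerSL ℂ (ξ x) : E →L[ℂ] ℂ) :=
      isCompactOperator_of_locallyCompactSpace_dom (innerSL ℂ (ξ x) : E →L[ℂ] ℂ)
    exact h3.clm_comp (ContinuousLinearMap.toSpanSingleton ℂ (ξ x))
  have h2 : ∀ s : Finset V, IsCompactOperator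
      (∑ x ∈ s, c x • InnerProductSpace.rankOne ℂ (ξ x) (ξ x) : E →L[ℂ] E) := by
    intro s
    classical
    induction s using Finset.induction with
    | empty => simpa using isCompactOperator_zero
    | insert a s ha ih =>
      rw [Finset.sum_insert ha]
      exact ((h1 a).smul (c a)).add ih
  exact h2 c.support

end ops

section act

variable {V : Type u} [Group V] (π : V →* (E ≃ₗᵢ[ℂ] E)) (ζ : E)

lemma hsz_mul (a b : V) (v : E) : π (a * b) v = π a (π b v) := by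
  rw [map_mul]; rfl

lemma hszK_act (l x y : V) : hszK (fun x => π x ζ) (l * x) (l * y) = hszK (fun x => π x ζ) x y := by
  show ‖⟪π (l * x) ζ, π (l * y) ζ⟫_ℂ‖ ^ 2 = ‖⟪π x ζ, π y ζ⟫_ℂ‖ ^ 2
  rw [hsz_mul, hsz_mul, LinearIsometryEquiv.inner_map_map]

lemma hszB_act (l : V) (c d : V →₀ ℝ) :
    hszB (fun x => π x ζ) (c.mapDomain (fun x => l * x)) (d.mapDomain (fun x => l * x)) =
      hszB (fun x => π x ζ) c d := by
  rw [hszB, Finsupp.linearCombination_mapDomain, Finsupp.linearCombination_apply,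
    Finsupp.linearCombination_apply, Finsupp.sum, Finsupp.sum, LinearMap.sum_apply,
    LinearMap.sum_apply]
  refine Finset.sum_congr rfl fun x _ => ?_
  rw [LinearMap.smul_apply, LinearMap.smul_apply, Function.comp_apply,
    Finsupp.linearCombination_mapDomain]
  have h1 : (fun y => hszK (fun x => π x ζ) (l * x) y) ∘ (fun x => l * x) =
      fun y => hszK (fun x => π x ζ) x y := by
    funext y
    exact hszK_act π ζ l x y
  rw [h1]

lemma hszT_act (l : V) (c : V →₀ ℝ) (v : E) :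
    hszT (fun x => π x ζ) (c.mapDomain (fun x => l * x)) (π l v) =
      π l (hszT (fun x => π x ζ) c v) := by
  rw [hszT_apply (fun x => π x ζ) c v, map_sum, hszT, Finsupp.linearCombination_mapDomain,
    Finsupp.linearCombination_apply, Finsupp.sum, sum_apply]
  refine Finset.sum_congr rfl fun x _ => ?_
  rw [smul_apply, Function.comp_apply, InnerProductSpace.rankOne_apply, hsz_mul,
    LinearIsometryEquiv.inner_map_map, map_smul, map_smul, Complex.coe_smul]

/-- finitely supported probability measures on a subgroup -/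
def hszC (L : Subgroup V) : Set (V →₀ ℝ) :=
  {c | (∀ x, 0 ≤ c x) ∧ (∀ x, x ∉ L → c x = 0) ∧
    Finsupp.linearCombination ℝ (fun _ : V => (1 : ℝ)) c = 1}

lemma hszC_conv {L : Subgroup V} {c d : V →₀ ℝ} (hc : c ∈ hszC L) (hd : d ∈ hszC L) {a b : ℝ}
    (ha : 0 ≤ a) (hb : 0 ≤ b) (hab : a + b = 1) : a • c + b • d ∈ hszC L := by
  obtain ⟨c1, c2, c3⟩ := hc
  obtain ⟨d1, d2, d3⟩ := hd
  refine ⟨fun x => ?_, fun x hx => ?_, ?_⟩
  · have := c1 x
    have := d1 x
    simp only [Finsupp.add_apply, Finsupp.smul_apply, smul_eq_mul]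
    positivity
  · simp only [Finsupp.add_apply, Finsupp.smul_apply, smul_eq_mul, c2 x hx, d2 x hx, mul_zero,
      add_zero]
  · rw [map_add, map_smul, map_smul, c3, d3, smul_eq_mul, smul_eq_mul, mul_one, mul_one, hab]

lemma hszC_act {L : Subgroup V} {c : V →₀ ℝ} (hc : c ∈ hszC L) {l : V} (hl : l ∈ L) :
    c.mapDomain (fun x => l * x) ∈ hszC L := by
  obtain ⟨c1, c2, c3⟩ := hc
  have hinj : Function.Injective (fun x : V => l * x) := mul_right_injective l
  have h1 : ∀ y : V, c.mapDomain (fun x => l * x) y = c (l⁻¹ * y) := by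
    intro y
    have h2 := Finsupp.mapDomain_apply hinj c (l⁻¹ * y)
    simp only [mul_inv_cancel_left] at h2
    exact h2
  refine ⟨fun x => ?_, fun x hx => ?_, ?_⟩
  · rw [h1]; exact c1 _
  · rw [h1]
    refine c2 _ fun h => hx ?_
    have := L.mul_mem hl h
    rwa [mul_inv_cancel_left] at this
  · rw [Finsupp.linearCombination_mapDomain]
    exact c3

lemma hszC_one (L : Subgroup V) : Finsupp.single (1 : V) (1 : ℝ) ∈ hszC L := by
  classical
  refine ⟨fun x => ?_, fun x hx => ?_, ?_⟩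
  · rw [Finsupp.single_apply]
    split_ifs <;> norm_num
  · rw [Finsupp.single_apply, if_neg]
    rintro rfl
    exact hx L.one_mem
  · rw [Finsupp.linearCombination_single, smul_eq_mul, mul_one]

end act

/-- a nonzero compact symmetric operator commuting with a subgroup -/
lemma hsz_limit {V : Type u} [Group V] [CompleteSpace E] (π : V →* (E ≃ₗᵢ[ℂ] E)) (ζ : E)
    (hζ : ‖ζ‖ = 1) (L : Subgroup V) (ε : ℝ) (hε : 0 < ε)
    (hC : ∀ c ∈ hszC L, ε < hszB (fun x => π x ζ) c c) :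
    ∃ T : E →L[ℂ] E, T ≠ 0 ∧ IsCompactOperator T ∧ (∀ u v, ⟪T u, v⟫_ℂ = ⟪u, T v⟫_ℂ) ∧
      ∀ l ∈ L, ∀ v, T (π l v) = π l (T v) := by
  classical
  have hnt : Nontrivial E := ⟨ζ, 0, by rintro rfl; simp at hζ⟩
  set ξ : V → E := fun x => π x ζ with hξ
  set S : Set ℝ := (fun c => hszB ξ c c) '' (hszC L) with hS
  have hSne : S.Nonempty := ⟨_, Finsupp.single 1 1, hszC_one L, rfl⟩
  have hSbdd : BddBelow S := by
    refine ⟨0, ?_⟩
    rintro _ ⟨c, -, rfl⟩
    exact (hszT_norm ξ c).1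
  set δ := sInf S with hδ
  have hδε : ε ≤ δ := by
    refine le_csInf hSne ?_
    rintro _ ⟨c, hc, rfl⟩
    exact (hC c hc).le
  have hδ0 : 0 < δ := lt_of_lt_of_le hε hδε
  have hle : ∀ c ∈ hszC L, δ ≤ hszB ξ c c := fun c hc => csInf_le hSbdd ⟨c, hc, rfl⟩
  have hmin : ∀ n : ℕ, ∃ c ∈ hszC L, hszB ξ c c < δ + 1 / ((n : ℝ) + 1) := by
    intro n
    have h1 : sInf S < δ + 1 / ((n : ℝ) + 1) := by
      have : 0 < 1 / ((n : ℝ) + 1) := by positivity
      linarith
    obtain ⟨_, ⟨c, hc, rfl⟩, h2⟩ := exists_lt_of_csInf_lt hSne h1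
    exact ⟨c, hc, h2⟩
  choose c hc1 hc2 using hmin
  have hdiff : ∀ a ∈ hszC L, ∀ b ∈ hszC L,
      ‖hszT ξ a - hszT ξ b‖ ^ 2 ≤ 2 * hszB ξ a a + 2 * hszB ξ b b - 4 * δ := by
    intro a ha b hb
    have h1 := (hszT_norm ξ (a - b)).2
    rw [map_sub] at h1
    have h2 := hle _ (hszC_conv ha hb (a := 1 / 2) (b := 1 / 2) (by norm_num) (by norm_num)
      (by norm_num))
    have h3 : hszB ξ ((1 / 2 : ℝ) • a + (1 / 2 : ℝ) • b) ((1 / 2 : ℝ) • a + (1 / 2 : ℝ) • b) =
        (hszB ξ a a + 2 * hszB ξ a b + hszB ξ b b) / 4 := by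
      simp only [map_add, map_smul, LinearMap.add_apply, LinearMap.smul_apply, smul_eq_mul]
      rw [hszB_symm ξ b a]
      ring
    have h4 : hszB ξ (a - b) (a - b) = hszB ξ a a - 2 * hszB ξ a b + hszB ξ b b := by
      simp only [map_sub, LinearMap.sub_apply]
      rw [hszB_symm ξ b a]
      ring
    rw [h3] at h2
    rw [h4] at h1
    linarith
  have hcau : CauchySeq (fun n => hszT ξ (c n)) := by
    refine cauchySeq_of_le_tendsto_0 (fun n : ℕ => Real.sqrt (4 * (1 / ((n : ℝ) + 1)))) ?_ ?_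
    · intro n m N hn hm
      rw [dist_eq_norm]
      refine Real.le_sqrt_of_sq_le ?_
      refine (hdiff _ (hc1 n) _ (hc1 m)).trans ?_
      have h1 := hc2 n
      have h2 := hc2 m
      have h3 : 1 / ((n : ℝ) + 1) ≤ 1 / ((N : ℝ) + 1) := by
        have : (N : ℝ) ≤ n := by exact_mod_cast hn
        gcongr
      have h4 : 1 / ((m : ℝ) + 1) ≤ 1 / ((N : ℝ) + 1) := by
        have : (N : ℝ) ≤ m := by exact_mod_cast hm
        gcongr
      linarith
    · have h1 : Tendsto (fun n : ℕ => 4 * (1 / ((n : ℝ) + 1))) atTop (𝓝 (4 * 0)) :=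
        tendsto_one_div_add_atTop_nhds_zero_nat.const_mul 4
      rw [mul_zero] at h1
      have h2 := (Real.continuous_sqrt.tendsto 0).comp h1
      rw [Real.sqrt_zero] at h2
      exact h2
  obtain ⟨T, hT⟩ := cauchySeq_tendsto_of_complete hcau
  have hTv : ∀ v, Tendsto (fun n => hszT ξ (c n) v) atTop (𝓝 (T v)) := fun v =>
    ((ContinuousLinearMap.apply ℂ E v).continuous.tendsto T).comp hT
  refine ⟨T, ?_, ?_, ?_, ?_⟩
  · -- the limit is not zero
    intro h0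
    set t : ℝ := δ / (δ + 1) with ht
    have ht0 : 0 < t := by positivity
    have ht1 : t * (δ + 1) = δ := by rw [ht]; field_simp
    have ht2 : t ≤ 1 := by
      rw [ht, div_le_one (by positivity)]; linarith
    set e1 : V →₀ ℝ := Finsupp.single 1 1 with he1
    have hξ1 : ξ 1 = ζ := by
      show π 1 ζ = ζ
      rw [map_one]; rfl
    have hB1 : hszB ξ e1 e1 = 1 := by
      rw [hszB, he1, Finsupp.linearCombination_single, LinearMap.smul_apply,
        Finsupp.linearCombination_single, one_smul, one_smul, hszK, hξ1,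
        inner_self_eq_norm_sq_to_K, hζ]
      norm_num
    have hB2 : ∀ n, |hszB ξ (c n) e1| ≤ ‖hszT ξ (c n)‖ := by
      intro n
      have h1 : ((hszB ξ (c n) e1 : ℝ) : ℂ) = ⟪ζ, hszT ξ (c n) ζ⟫_ℂ := by
        rw [hszT_apply, inner_sum, hszB, Finsupp.linearCombination_apply, Finsupp.sum,
          LinearMap.sum_apply]
        push_cast
        refine Finset.sum_congr rfl fun x _ => ?_
        rw [LinearMap.smul_apply, he1, Finsupp.linearCombination_single, one_smul, smul_eq_mul,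
          inner_smul_right, inner_smul_right, hszK, hξ1, ← inner_conj_symm ζ (ξ x),
          Complex.mul_conj, Complex.normSq_eq_norm_sq]
        push_cast
        ring
      have h2 : |hszB ξ (c n) e1| = ‖⟪ζ, hszT ξ (c n) ζ⟫_ℂ‖ := by
        rw [← h1, Complex.norm_real, Real.norm_eq_abs]
      rw [h2]
      refine (norm_inner_le_norm _ _).trans ?_
      rw [hζ, one_mul]
      refine (ContinuousLinearMap.le_opNorm _ _).trans ?_
      rw [hζ, mul_one]
    have hlim1 : Tendsto (fun n => ‖hszT ξ (c n)‖) atTop (𝓝 0) := by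
      have := hT.norm
      rwa [h0, norm_zero] at this
    have hlim2 : Tendsto (fun n => hszB ξ (c n) e1) atTop (𝓝 0) := by
      rw [tendsto_zero_iff_abs_tendsto_zero]
      exact squeeze_zero (fun n => abs_nonneg _) hB2 hlim1
    have hlim3 : Tendsto (fun n : ℕ => (1 - t) ^ 2 * (δ + 1 / ((n : ℝ) + 1)) +
        2 * t * (1 - t) * hszB ξ (c n) e1 + t ^ 2) atTop
        (𝓝 ((1 - t) ^ 2 * (δ + 0) + 2 * t * (1 - t) * 0 + t ^ 2)) :=
      (((tendsto_const_nhds.add tendsto_one_div_add_atTop_nhds_zero_nat).const_mul _).add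
        (hlim2.const_mul _)).add tendsto_const_nhds
    have h5 : δ ≤ (1 - t) ^ 2 * (δ + 0) + 2 * t * (1 - t) * 0 + t ^ 2 := by
      refine ge_of_tendsto' hlim3 fun n => ?_
      have h1 := hle _ (hszC_conv (hc1 n) (hszC_one L) (a := 1 - t) (b := t) (by linarith)
        ht0.le (by ring))
      have h3 : hszB ξ ((1 - t) • c n + t • e1) ((1 - t) • c n + t • e1) =
          (1 - t) ^ 2 * hszB ξ (c n) (c n) + 2 * t * (1 - t) * hszB ξ (c n) e1 + t ^ 2 := by
        simp only [map_add, map_smul, LinearMap.add_apply, LinearMap.smul_apply, smul_eq_mul]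
        rw [hszB_symm ξ e1 (c n), hB1]
        ring
      rw [h3] at h1
      have h4 : (1 - t) ^ 2 * hszB ξ (c n) (c n) ≤ (1 - t) ^ 2 * (δ + 1 / ((n : ℝ) + 1)) :=
        mul_le_mul_of_nonneg_left (hc2 n).le (sq_nonneg _)
      linarith
    nlinarith [mul_pos ht0 hδ0]
  · exact isCompactOperator_of_tendsto hT (Eventually.of_forall fun n => hszT_compact ξ (c n))
  · intro u v
    refine tendsto_nhds_unique ((hTv u).inner tendsto_const_nhds) ?_
    have h1 : Tendsto (fun n => ⟪u, hszT ξ (c n) v⟫_ℂ) atTop (𝓝 ⟪u, T v⟫_ℂ) :=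
      tendsto_const_nhds.inner (hTv v)
    exact h1.congr fun n => (hszT_symm ξ (c n) u v).symm
  · intro l hl v
    have h1 : Tendsto (fun n => hszT ξ ((c n).mapDomain (fun x => l * x)) (π l v)) atTop
        (𝓝 (π l (T v))) := by
      have h2 : Tendsto (fun n => π l (hszT ξ (c n) v)) atTop (𝓝 (π l (T v))) :=
        ((π l).continuous.tendsto (T v)).comp (hTv v)
      exact h2.congr fun n => (hszT_act π ζ l (c n) v).symm
    have h2 : Tendsto (fun n => hszT ξ ((c n).mapDomain (fun x => l * x)) (π l v) -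
        hszT ξ (c n) (π l v)) atTop (𝓝 0) := by
      rw [tendsto_zero_iff_norm_tendsto_zero]
      have h3 : Tendsto (fun n : ℕ => Real.sqrt (4 * (1 / ((n : ℝ) + 1))) * ‖π l v‖) atTop
          (𝓝 0) := by
        have h1 : Tendsto (fun n : ℕ => 4 * (1 / ((n : ℝ) + 1))) atTop (𝓝 (4 * 0)) :=
          tendsto_one_div_add_atTop_nhds_zero_nat.const_mul 4
        rw [mul_zero] at h1
        have h2 := (Real.continuous_sqrt.tendsto 0).comp h1
        rw [Real.sqrt_zero] at h2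
        have h3 := h2.mul_const ‖π l v‖
        rw [zero_mul] at h3
        exact h3
      refine squeeze_zero (fun n => norm_nonneg _) (fun n => ?_) h3
      have h4 : ‖hszT ξ ((c n).mapDomain (fun x => l * x)) - hszT ξ (c n)‖ ≤
          Real.sqrt (4 * (1 / ((n : ℝ) + 1))) := by
        refine Real.le_sqrt_of_sq_le ?_
        refine (hdiff _ (hszC_act (hc1 n) hl) _ (hc1 n)).trans ?_
        rw [hszB_act π ζ l (c n) (c n)]
        have := hc2 n
        linarith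
      have h5 := ContinuousLinearMap.le_opNorm
        (hszT ξ ((c n).mapDomain (fun x => l * x)) - hszT ξ (c n)) (π l v)
      rw [sub_apply] at h5
      exact h5.trans (mul_le_mul_of_nonneg_right h4 (norm_nonneg _))
    have h3 := h1.sub h2
    simp only [sub_sub_cancel, sub_zero] at h3
    exact tendsto_nhds_unique (hTv (π l v)) h3

/-- a nonzero compact symmetric operator commuting with a subgroup of finite index forces an
irreducible representation to be finite dimensional -/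
lemma hsz_fin {V : Type u} [Group V] [CompleteSpace E] (π : V →* (E ≃ₗᵢ[ℂ] E)) (L : Subgroup V)
    (hL : L.FiniteIndex)
    (hsc : ∀ T : E →L[ℂ] E, (∀ x v, T (π x v) = π x (T v)) → ∃ c : ℂ, ∀ v, T v = c • v)
    (T : E →L[ℂ] E) (hT0 : T ≠ 0) (hTc : IsCompactOperator T)
    (hTs : ∀ u v, ⟪T u, v⟫_ℂ = ⟪u, T v⟫_ℂ)
    (hTL : ∀ l ∈ L, ∀ v, T (π l v) = π l (T v)) : FiniteDimensional ℂ E := by
  have hsym : (T : E →ₗ[ℂ] E).IsSymmetric := hTs
  have h1 : ∃ μ : ℂ, Module.End.HasEigenvalue (T : Module.End ℂ E) μ ∧ μ ≠ 0 := by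
    by_contra hcon
    push Not at hcon
    exact hT0 ((ContinuousLinearMap.eq_zero_of_forall_hasEigenvalue_eq_zero hTc hsym).1 hcon)
  obtain ⟨μ, hμ, hμ0⟩ := h1
  set F : Submodule ℂ E := Module.End.eigenspace (T : Module.End ℂ E) μ with hF
  have hFd : FiniteDimensional ℂ F := ContinuousLinearMap.finite_dimensional_eigenspace hTc μ hμ0
  have hFinv : ∀ l ∈ L, ∀ v ∈ F, π l v ∈ F := by
    intro l hl v hv
    rw [hF, Module.End.mem_eigenspace_iff] at hv ⊢
    have h2 : T v = μ • v := hv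
    show T (π l v) = μ • π l v
    rw [hTL l hl v, h2, map_smul]
  set W : Submodule ℂ E :=
    ⨆ q : V ⧸ L, F.map ((π q.out).toLinearEquiv : E →ₗ[ℂ] E) with hW
  have hq : Finite (V ⧸ L) := L.finite_quotient_of_finiteIndex
  have hWd : FiniteDimensional ℂ W := Submodule.finite_iSup _
  have hmem : ∀ g : V, ∀ v ∈ F, π g v ∈ W := by
    intro g v hv
    have h2 : (QuotientGroup.mk (g : V) : V ⧸ L).out⁻¹ * g ∈ L := by
      exact QuotientGroup.eq.1 (QuotientGroup.out_eq' (QuotientGroup.mk (g : V) : V ⧸ L))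
    have h3 : π g v = π (QuotientGroup.mk (g : V) : V ⧸ L).out
        (π ((QuotientGroup.mk (g : V) : V ⧸ L).out⁻¹ * g) v) := by
      rw [← hsz_mul, mul_inv_cancel_left]
    rw [h3]
    refine Submodule.mem_iSup_of_mem (QuotientGroup.mk (g : V) : V ⧸ L) ?_
    exact Submodule.mem_map_of_mem (hFinv _ h2 v hv)
  have hle : ∀ g : V, W.map ((π g).toLinearEquiv : E →ₗ[ℂ] E) ≤ W := by
    intro g
    rw [hW, Submodule.map_iSup]
    refine iSup_le fun q => ?_
    rintro _ ⟨_, ⟨v, hv, rfl⟩, rfl⟩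
    have h2 := hmem (g * q.out) v hv
    rw [hsz_mul] at h2
    exact h2
  have hWeq : ∀ g : V, W.map ((π g).toLinearEquiv : E →ₗ[ℂ] E) = W := by
    intro g
    refine le_antisymm (hle g) fun v hv => ?_
    refine ⟨π g⁻¹ v, hle g⁻¹ (Submodule.mem_map_of_mem hv), ?_⟩
    show π g (π g⁻¹ v) = v
    rw [← hsz_mul, mul_inv_cancel, map_one]
    rfl
  have hcomm : ∀ x v, W.starProjection (π x v) = π x (W.starProjection v) := by
    intro x v
    have h2 := Submodule.starProjection_map_apply (π x) W (π x v)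
    rw [LinearIsometryEquiv.symm_apply_apply] at h2
    rw [← h2]
    congr 2
    exact (hWeq x).symm
  obtain ⟨c, hc⟩ := hsc W.starProjection hcomm
  obtain ⟨v, hv⟩ := hμ.exists_hasEigenvector
  have hvF : v ∈ F := hv.1
  have hv0 : v ≠ 0 := hv.2
  have hvW : v ∈ W := by
    have h2 := hmem 1 v hvF
    rw [map_one] at h2
    exact h2
  have hc1 : c = 1 := by
    have h2 := hc v
    rw [Submodule.starProjection_eq_self_iff.2 hvW] at h2
    have h3 : (c - 1) • v = 0 := by rw [sub_smul, one_smul, ← h2, sub_self]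
    rcases smul_eq_zero.1 h3 with h4 | h4
    · exact sub_eq_zero.1 h4
    · exact absurd h4 hv0
  have htop : W = ⊤ := by
    rw [eq_top_iff]
    intro x _
    rw [← Submodule.starProjection_eq_self_iff, hc x, hc1, one_smul]
  rw [htop] at hWd
  exact Module.Finite.equiv (Submodule.topEquiv : (⊤ : Submodule ℂ E) ≃ₗ[ℂ] E)

theorem st_HSZ (h1 : ST_EXT.{u}) (h2 : ST_TORF.{u}) : ST_HSZ.{u} := by
  intro V _ hnil hfg φ hφ E _ _ _ π ζ hG hinf e he ε hε
  have hφK : φ ∈ KK V := hφ.1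
  have hζ : ‖ζ‖ = 1 := by
    have h3 := hG.coef 1
    rw [hφK.2, map_one] at h3
    have h4 : ⟪ζ, ζ⟫_ℂ = 1 := h3.symm
    rw [inner_self_eq_norm_sq_to_K] at h4
    have h6 : ((‖ζ‖ ^ 2 : ℝ) : ℂ) = ((1 : ℝ) : ℂ) := by
      rw [Complex.ofReal_pow, Complex.ofReal_one]
      exact h4
    have h5 : ‖ζ‖ ^ 2 = 1 := Complex.ofReal_injective h6
    have h7 := norm_nonneg ζ
    nlinarith
  have hK : ∀ x y, hszK (fun x => π x ζ) x y = ‖φ (x⁻¹ * y)‖ ^ 2 := by
    intro x y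
    show ‖⟪π x ζ, π y ζ⟫_ℂ‖ ^ 2 = ‖φ (x⁻¹ * y)‖ ^ 2
    rw [hG.coef, ← LinearIsometryEquiv.inner_map_map (π x) ζ, ← hsz_mul, mul_inv_cancel_left]
  by_contra hcon
  push Not at hcon
  have hC : ∀ c ∈ hszC (pw V e), ε < hszB (fun x => π x ζ) c c := by
    rintro c ⟨c1, c2, c3⟩
    have h3 := hcon c.support c (fun x hx => ⟨?_, c1 x⟩) ?_
    · rw [hszB_apply]
      refine h3.trans_le (le_of_eq ?_)
      refine Finset.sum_congr rfl fun x _ => Finset.sum_congr rfl fun y _ => ?_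
      rw [hK]
    · by_contra hx2
      exact (Finsupp.mem_support_iff.1 hx) (c2 x hx2)
    · rw [← c3, Finsupp.linearCombination_apply, Finsupp.sum]
      refine Finset.sum_congr rfl fun x _ => ?_
      rw [smul_eq_mul, mul_one]
  obtain ⟨T, hT0, hTc, hTs, hTL⟩ := hsz_limit π ζ hζ (pw V e) ε hε hC
  exact hinf (hsz_fin π (pw V e) (h2 V hnil hfg e he) (h1 V φ hφ E π ζ hG) T hT0 hTc hTs hTL)

end Pool.Agent.Helper40.Nil
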